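import Mathlib
import Pool.Agent.Run7.h441.JM.Stm

/-! Piece KSL: an abstract Kummer–Stoll lemma. -/

set_option autoImplicit false

namespace Run7.h216.JM

open Run7.h441.JM MulAction

/-- the character of `ZMod 2` -/
noncomputable def sg (L : Type) [Field L] (a : ZMod 2) : L := if a = 0 then 1 else -1

theorem sg_add (L : Type) [Field L] (a b : ZMod 2) : sg L (a + b) = sg L a * sg L b := by
  have h01 : ∀ a : ZMod 2, a = 0 ∨ a = 1 := by decide
  have h11 : (1 : ZMod 2) + 1 = 0 := rfl
  unfold sg
  rcases h01 a with rfl | rfl <;> rcases h01 b with rfl | rfl <;> simp [h11]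

theorem sg_zero (L : Type) [Field L] : sg L 0 = 1 := by simp [sg]

theorem sg_inj (L : Type) [Field L] (h2 : (2 : L) ≠ 0) {a b : ZMod 2} (h : sg L a = sg L b) :
    a = b := by
  unfold sg at h
  have h1 : (1 : L) ≠ -1 := by
    intro h'
    apply h2
    linear_combination h'
  have h3 : ∀ x : ZMod 2, x ≠ 0 → x = 1 := by decide
  by_cases ha : a = 0 <;> by_cases hb : b = 0
  · rw [ha, hb]
  · rw [if_pos ha, if_neg hb] at h; exact absurd h h1
  · rw [if_neg ha, if_pos hb] at h; exact absurd h.symm h1
  · rw [h3 a ha, h3 b hb]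

theorem sg_ne (L : Type) [Field L] (a : ZMod 2) : sg L a ≠ 0 := by
  unfold sg; split_ifs <;> norm_num

theorem smul_sg {G : Type} [Group G] {L : Type} [Field L] [MulSemiringAction G L] (g : G)
    (a : ZMod 2) (x : L) : g • (sg L a * x) = sg L a * g • x := by
  unfold sg
  split_ifs
  · rw [one_mul, one_mul]
  · rw [neg_one_mul, smul_neg, neg_one_mul]

theorem t_KSL : S_KSL := by
  classical
  intro G _ L _ _ Y t N h2 hY htr hN ht hsgn hex v hv
  let Y' := {y // y ∈ Y}
  -- the action on `Y'`
  let act : MulAction G Y' :=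
    { smul := fun g y => ⟨g • y.1, hY g y.1 y.2⟩
      one_smul := fun y => Subtype.ext (one_smul G y.1)
      mul_smul := fun g h y => Subtype.ext (mul_smul g h y.1) }
  have coe_smul : ∀ (g : G) (y : Y'), ((g • y : Y') : L) = g • (y : L) := fun g y => rfl
  let G0 : G → Prop := fun g => ∀ y ∈ Y, g • y = y
  let eps : G → Y' → ZMod 2 := fun g y => if g • t y = t y then 0 else 1
  have heps : ∀ g, G0 g → ∀ y : Y', g • t y = sg L (eps g y) * t y := by
    intro g hg y
    by_cases h : g • t y = t y
    · simp only [eps, if_pos h, sg_zero, one_mul, h]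
    · rcases hsgn g y.1 y.2 with h' | h'
      · rw [hg y.1 y.2] at h'; exact absurd h' h
      · rw [hg y.1 y.2] at h'
        simp only [eps, if_neg h]
        rw [h']
        simp [sg]
  have hG1 : G0 1 := fun y _ => one_smul G y
  have hGm : ∀ g h, G0 g → G0 h → G0 (g * h) := fun g h hg hh y hy => by
    rw [mul_smul, hh y hy, hg y hy]
  have hGc : ∀ g h : G, G0 g → G0 (h * g * h⁻¹) := fun g h hg y hy => by
    rw [mul_smul, mul_smul, hg _ (hY h⁻¹ y hy), smul_inv_smul]
  have eps_mul : ∀ g h, G0 g → G0 h → ∀ y, eps (g * h) y = eps g y + eps h y := by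
    intro g h hg hh y
    apply sg_inj L h2
    have h1 := heps (g * h) (hGm g h hg hh) y
    rw [mul_smul, heps h hh y, smul_sg, heps g hg y] at h1
    have h3 := ht y.1 y.2
    rw [sg_add]
    apply mul_right_cancel₀ h3
    linear_combination -h1
  have eps_one : ∀ y, eps 1 y = 0 := fun y => by simp [eps]
  have eps_conj : ∀ g h, G0 g → ∀ y, eps (h * g * h⁻¹) (h • y) = eps g y := by
    intro g h hg y
    apply sg_inj L h2
    have h1 := heps (h * g * h⁻¹) (hGc g h hg) (h • y)
    have h3 := ht (h • y : Y').1 (h • y : Y').2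
    apply mul_right_cancel₀ h3
    rw [← h1]
    rcases hsgn h y.1 y.2 with h4 | h4
    · have h5 : t (h • y : Y').1 = h • t y.1 := h4.symm
      rw [h5, mul_smul, mul_smul, inv_smul_smul, heps g hg y, smul_sg]
    · have h5 : t (h • y : Y').1 = - (h • t y.1) := by rw [h4, neg_neg]; rfl
      rw [h5, mul_smul, mul_smul, smul_neg, smul_neg, smul_neg, inv_smul_smul, heps g hg y,
        smul_sg]
      ring
  -- the annihilator
  let A : AddSubgroup (Y' → ZMod 2) :=
    { carrier := {c | ∀ g, G0 g → ∑ y, c y * eps g y = 0}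
      zero_mem' := fun g _ => by simp
      add_mem' := fun {a b} ha hb g hg => by
        have := ha g hg
        have := hb g hg
        simp only [Pi.add_apply, add_mul, Finset.sum_add_distrib]
        rw [ha g hg, hb g hg, add_zero]
      neg_mem' := fun {a} ha g hg => by
        simp only [Pi.neg_apply, neg_mul, Finset.sum_neg_distrib]
        rw [ha g hg, neg_zero] }
  have hA : ∀ c ∈ A, c = 0 := by
    intro c₀ hc₀
    by_contra hne
    let P : Subgroup (Equiv.Perm Y') := (MulAction.toPermHom G Y').range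
    have hP : IsPGroup 2 P := by
      rintro ⟨_, g, rfl⟩
      refine ⟨N, Subtype.ext ?_⟩
      rw [SubgroupClass.coe_pow, ← map_pow]
      ext y
      exact hN g y.1 y.2
    let actA : MulAction P A :=
      { smul := fun σ c => ⟨fun y => c.1 (σ.1⁻¹ y), by
          obtain ⟨_, h, rfl⟩ := σ
          intro g hg
          have e := c.2 (h⁻¹ * g * h⁻¹⁻¹) (hGc g h⁻¹ hg)
          rw [← e]
          refine Fintype.sum_equiv (MulAction.toPerm h⁻¹) _ _ fun y => ?_
          have e1 := eps_conj g h⁻¹ hg y
          simp only [MulAction.toPerm_apply]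
          rw [e1]
          congr 1⟩
        one_smul := fun c => by ext y; rfl
        mul_smul := fun σ τ c => by
          ext y
          change c.1 ((σ.1 * τ.1)⁻¹ y) = c.1 (τ.1⁻¹ (σ.1⁻¹ y))
          rw [mul_inv_rev]; rfl }
    have hsmul : ∀ (σ : P) (c : A) (y : Y'), (σ • c : A).1 y = c.1 (σ.1⁻¹ y) := fun _ _ _ => rfl
    have hcard : 2 ∣ Nat.card A := by
      have h1 : addOrderOf (⟨c₀, hc₀⟩ : A) = 2 := by
        apply addOrderOf_eq_prime
        · ext y
          have : ∀ x : ZMod 2, 2 • x = 0 := by decide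
          exact this _
        · intro h; exact hne (congrArg Subtype.val h)
      have h3 := addOrderOf_dvd_natCard (⟨c₀, hc₀⟩ : A)
      rwa [h1] at h3
    have h0 : (0 : A) ∈ fixedPoints P A := by
      intro σ; ext y; rfl
    obtain ⟨b, hb, hb0⟩ := hP.exists_fixed_point_of_prime_dvd_card_of_fixed_point A hcard h0
    have hbc : ∀ (h : G) (y : Y'), b.1 (h • y) = b.1 y := by
      intro h y
      have e := hb ⟨MulAction.toPermHom G Y' h⁻¹, ⟨h⁻¹, rfl⟩⟩
      have e1 := congrArg (fun z : A => z.1 y) e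
      simp only [hsmul] at e1
      rw [← e1]
      refine congrArg b.1 ?_
      rw [Equiv.Perm.eq_inv_iff_eq]
      exact inv_smul_smul h y
    obtain ⟨y₀, hy₀⟩ : ∃ y₀, b.1 y₀ ≠ 0 := by
      by_contra hcon
      push Not at hcon
      apply hb0
      ext y
      exact (hcon y).symm
    have hb1 : ∀ y, b.1 y = 1 := by
      intro y
      obtain ⟨g, hg⟩ := htr y₀.1 y₀.2 y.1 y.2
      have e : g • y₀ = y := Subtype.ext hg
      rw [← e, hbc]
      have h3 : ∀ x : ZMod 2, x ≠ 0 → x = 1 := by decide
      exact h3 _ hy₀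
    obtain ⟨g, hg, hg2⟩ := hex
    apply hg2
    have e := b.2 g hg
    simp only [hb1, one_mul] at e
    have h5 : ∀ s : Finset Y', ∏ y ∈ s, g • t y.1 = sg L (∑ y ∈ s, eps g y) * ∏ y ∈ s, t y.1 := by
      intro s
      induction s using Finset.induction_on with
      | empty => simp [sg_zero]
      | insert a s ha ih =>
        rw [Finset.prod_insert ha, Finset.sum_insert ha, Finset.prod_insert ha, ih, sg_add,
          heps g hg a]
        ring
    rw [Finset.smul_prod', ← Finset.prod_coe_sort Y (fun y => g • t y),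
      ← Finset.prod_coe_sort Y (fun y => t y)]
    have h6 := h5 Finset.univ
    rw [e, sg_zero, one_mul] at h6
    exact h6
  -- duality
  let V : Submodule (ZMod 2) (Y' → ZMod 2) :=
    { carrier := {f | ∃ g, G0 g ∧ f = eps g}
      zero_mem' := ⟨1, hG1, by ext y; rw [eps_one]; rfl⟩
      add_mem' := by
        rintro _ _ ⟨g, hg, rfl⟩ ⟨h, hh, rfl⟩
        exact ⟨g * h, hGm g h hg hh, by ext y; rw [eps_mul g h hg hh]; rfl⟩
      smul_mem' := by
        rintro a _ ⟨g, hg, rfl⟩
        have : a = 0 ∨ a = 1 := by revert a; decide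
        rcases this with rfl | rfl
        · exact ⟨1, hG1, by ext y; rw [eps_one]; simp⟩
        · exact ⟨g, hg, by simp⟩ }
  have hV : V = ⊤ := by
    by_contra hne
    obtain ⟨f, hf0, hf⟩ := V.exists_le_ker_of_lt_top (lt_top_iff_ne_top.mpr hne)
    apply hf0
    have hfe : ∀ x : Y' → ZMod 2, f x = ∑ y, f (Pi.single y 1) * x y := by
      intro x
      conv_lhs => rw [pi_eq_sum_univ' x, map_sum]
      refine Finset.sum_congr rfl fun y _ => ?_
      rw [map_smul, smul_eq_mul, mul_comm]
    have hc : (fun y => f (Pi.single y 1)) ∈ A := by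
      intro g hg
      have h1 : eps g ∈ V := ⟨g, hg, rfl⟩
      have h3 := hf h1
      rw [LinearMap.mem_ker, hfe] at h3
      exact h3
    have h4 := hA _ hc
    refine LinearMap.ext fun x => ?_
    rw [hfe]
    simp only [LinearMap.zero_apply]
    refine Finset.sum_eq_zero fun y _ => ?_
    have := congrFun h4 y
    simp only [Pi.zero_apply] at this
    rw [this, zero_mul]
  have hmem : (Pi.single (⟨v, hv⟩ : Y') 1 : Y' → ZMod 2) ∈ V := by rw [hV]; trivial
  obtain ⟨g, hg, he⟩ := hmem
  refine ⟨g, hg, ?_, ?_⟩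
  · have h1 := heps g hg ⟨v, hv⟩
    rw [← he] at h1
    simpa [sg] using h1
  · intro y hy hyv
    have h1 := heps g hg ⟨y, hy⟩
    rw [← he] at h1
    have h3 : (Pi.single (⟨v, hv⟩ : Y') 1 : Y' → ZMod 2) ⟨y, hy⟩ = 0 := by
      rw [Pi.single_apply, if_neg]
      intro h; exact hyv (congrArg Subtype.val h)
    rw [h3, sg_zero, one_mul] at h1
    exact h1

end Run7.h216.JM
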