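import Mathlib
import Pool.Agent.Run7.h441.JM.Stm

/-! Piece LOC: a 2-adic vertex. -/

set_option autoImplicit false

namespace Run7.h216.JM

open Run7.h441.JM

theorem n2 : ‖(2 : ℚ_[2])‖ = 1 / 2 := by
  have h := Padic.norm_p (p := 2)
  push_cast at h
  rw [h]; norm_num

theorem nadd {x y : ℚ_[2]} (h : ‖x‖ < ‖y‖) : ‖x + y‖ = ‖y‖ := by
  rw [Padic.add_eq_max_of_ne h.ne, max_eq_right h.le]

/-- square criterion -/
theorem sqrt_ex (x : ℚ_[2]) (hx : ‖x - 1‖ ≤ 1 / 8) :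
    ∃ s : ℚ_[2], s ^ 2 = x ∧ ‖s - 1‖ = 2 * ‖x - 1‖ ∧ ‖1 + s‖ = 1 / 2 := by
  have hx1 : ‖x‖ ≤ 1 := by
    have h := Padic.nonarchimedean (x - 1) 1
    rw [sub_add_cancel, norm_one] at h
    exact h.trans (max_le (hx.trans (by norm_num)) le_rfl)
  let X : ℤ_[2] := ⟨x, hx1⟩
  have hXx : (X : ℚ_[2]) = x := rfl
  let F : Polynomial ℤ_[2] := Polynomial.X ^ 2 - Polynomial.C X
  have hF : ∀ z : ℤ_[2], Polynomial.aeval z F = z ^ 2 - X := by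
    intro z; simp [F]
  have hF' : ∀ z : ℤ_[2], Polynomial.aeval z (Polynomial.derivative F) = 2 * z := by
    intro z; simp [F]; left; norm_num
  have h2 : ‖(2 : ℤ_[2])‖ = 1 / 2 := by
    rw [← n2, PadicInt.norm_def]; rfl
  have hnorm : ‖Polynomial.aeval (1 : ℤ_[2]) F‖ <
      ‖Polynomial.aeval (1 : ℤ_[2]) (Polynomial.derivative F)‖ ^ 2 := by
    rw [hF, hF', mul_one, h2, one_pow]
    have : ‖(1 : ℤ_[2]) - X‖ = ‖x - 1‖ := by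
      rw [norm_sub_rev, PadicInt.norm_def]
      rfl
    rw [this]
    linarith
  obtain ⟨z, hz, hz1, -, -⟩ := hensels_lemma hnorm
  rw [hF] at hz
  rw [hF', mul_one, h2] at hz1
  have hs2 : (z : ℚ_[2]) ^ 2 = x := by
    have := congrArg (fun t : ℤ_[2] => (t : ℚ_[2])) hz
    simp only [PadicInt.coe_sub, PadicInt.coe_pow, PadicInt.coe_zero] at this
    rw [hXx] at this
    linear_combination this
  have hs1 : ‖(z : ℚ_[2]) - 1‖ < 1 / 2 := by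
    have : ‖(z : ℚ_[2]) - 1‖ = ‖z - 1‖ := by
      rw [PadicInt.norm_def]; rfl
    rw [this]; exact hz1
  have h1s : ‖1 + (z : ℚ_[2])‖ = 1 / 2 := by
    have : 1 + (z : ℚ_[2]) = ((z : ℚ_[2]) - 1) + 2 := by ring
    rw [this, nadd (by rw [n2]; exact hs1), n2]
  refine ⟨z, hs2, ?_, h1s⟩
  have h3 : ‖(z : ℚ_[2]) - 1‖ * ‖1 + (z : ℚ_[2])‖ = ‖x - 1‖ := by
    rw [← norm_mul, ← hs2]
    congr 1; ring
  rw [h1s] at h3
  linarith

/-- the sibling -/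
theorem sib {L : Type} [Field L] {κ u y : L} (hκ : κ ≠ 0) (h : κ * (y ^ 2 - 1) = u * y) :
    y ≠ 0 ∧ κ * ((-1 / y) ^ 2 - 1) = u * (-1 / y) := by
  have hy : y ≠ 0 := by
    rintro rfl
    apply hκ
    linear_combination -h
  refine ⟨hy, ?_⟩
  field_simp
  linear_combination -h

/-- the large child -/
theorem large {κ u : ℚ_[2]} (hκ : κ ≠ 0) (hk : ‖κ‖ ≤ 1 / 8) (hu : 1 ≤ ‖u‖) :
    ∃ s y : ℚ_[2], ‖1 + s‖ = 1 / 2 ∧ y = u * (1 + s) / (2 * κ) ∧ κ * (y ^ 2 - 1) = u * y ∧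
      ‖y‖ = ‖u‖ / ‖κ‖ := by
  have hu0 : u ≠ 0 := by
    intro h; rw [h, norm_zero] at hu; linarith
  have h2 : (2 : ℚ_[2]) ≠ 0 := by norm_num
  obtain ⟨s, hs, -, h1s⟩ := sqrt_ex (1 + 4 * κ ^ 2 / u ^ 2) (by
    have : (1 + 4 * κ ^ 2 / u ^ 2 - 1 : ℚ_[2]) = 2 * 2 * κ ^ 2 / u ^ 2 := by ring
    rw [this, norm_div, norm_mul, norm_mul, norm_pow, norm_pow, n2]
    have h3 : 1 ≤ ‖u‖ ^ 2 := one_le_pow₀ hu
    rw [div_le_iff₀ (by linarith)]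
    nlinarith [norm_nonneg κ])
  refine ⟨s, u * (1 + s) / (2 * κ), h1s, rfl, ?_, ?_⟩
  · have h5 : s ^ 2 * u ^ 2 = u ^ 2 + 4 * κ ^ 2 := by
      rw [hs]; field_simp
    field_simp
    linear_combination h5
  · rw [norm_div, norm_mul, norm_mul, n2, h1s]
    have : ‖κ‖ ≠ 0 := norm_ne_zero_iff.mpr hκ
    field_simp

/-- a vertex of large norm -/
theorem tower {k : ℤ} (hk0 : (k : ℚ_[2]) ≠ 0) (hk : ‖(k : ℚ_[2])‖ ≤ 1 / 8) (j : ℕ) :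
    ∃ y : ℚ_[2], Lev k j y ∧ ‖y‖ * ‖(k : ℚ_[2])‖ ^ j = 1 := by
  have hkn : ‖(k : ℚ_[2])‖ ≠ 0 := norm_ne_zero_iff.mpr hk0
  induction j with
  | zero => exact ⟨1, rfl, by simp⟩
  | succ j ih =>
    obtain ⟨u, hu, hun⟩ := ih
    have hu1 : 1 ≤ ‖u‖ := by
      have h1 : ‖(k : ℚ_[2])‖ ^ j ≤ 1 := pow_le_one₀ (norm_nonneg _) (hk.trans (by norm_num))
      nlinarith [norm_nonneg u]
    obtain ⟨s, y, -, -, hy, hyn⟩ := large hk0 hk hu1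
    refine ⟨y, ⟨u, hu, hy⟩, ?_⟩
    rw [hyn, pow_succ, ← hun]
    field_simp

/-- elements of norm `1` are `≡ 1 mod 2` -/
theorem unit_sub {x : ℚ_[2]} (hx : ‖x‖ = 1) : ‖x - 1‖ ≤ 1 / 2 := by
  let X : ℤ_[2] := ⟨x, hx.le⟩
  obtain ⟨n, hn, hX⟩ := PadicInt.exists_mem_range (p := 2) X
  rw [IsLocalRing.mem_maximalIdeal, PadicInt.mem_nonunits] at hX
  have h1 : ‖X - ((n : ℕ) : ℤ_[2])‖ ≤ 1 / 2 := by
    have := (PadicInt.norm_le_pow_iff_norm_lt_pow_add_one (X - ((n : ℕ) : ℤ_[2])) (-1)).mpr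
      (by simpa using hX)
    simpa using this
  have h3 : ‖X - ((n : ℕ) : ℤ_[2])‖ = ‖x - (n : ℚ_[2])‖ := by
    rw [PadicInt.norm_def]
    rfl
  rw [h3] at h1
  interval_cases n
  · simp only [Nat.cast_zero, sub_zero] at h1
    rw [hx] at h1; norm_num at h1
  · simpa using h1

/-- `1 + 4 η²` is not a square -/
theorem not_sq {η z : ℚ_[2]} (hη : ‖η‖ = 1) (hz : z ^ 2 = 1 + 4 * η ^ 2) : False := by
  have h4 : ‖(4 : ℚ_[2]) * η ^ 2‖ = 1 / 4 := by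
    have : (4 : ℚ_[2]) = 2 * 2 := by norm_num
    rw [norm_mul, this, norm_mul, n2, norm_pow, hη]; norm_num
  have hz1 : ‖z‖ = 1 := by
    have h5 : ‖z‖ ^ 2 = 1 := by
      rw [← norm_pow, hz, add_comm, nadd (by rw [h4, norm_one]; norm_num), norm_one]
    nlinarith [norm_nonneg z]
  have h6 := unit_sub hz1
  have h7 : ‖z + 1‖ ≤ 1 / 2 := by
    have := unit_sub (x := -z) (by rw [norm_neg, hz1])
    rw [show -z - 1 = -(z + 1) by ring, norm_neg] at this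
    exact this
  have h8 : ‖z - 1‖ * ‖z + 1‖ = 1 / 4 := by
    rw [← norm_mul, ← h4]
    congr 1
    linear_combination hz
  have h9 : ‖z - 1‖ = 1 / 2 := by nlinarith [norm_nonneg (z - 1), norm_nonneg (z + 1)]
  have h10 : ‖z + 1‖ = 1 / 2 := by nlinarith [norm_nonneg (z - 1), norm_nonneg (z + 1)]
  have h2 : (2 : ℚ_[2]) ≠ 0 := by norm_num
  have h11 : ‖(z - 1) / 2‖ = 1 := by rw [norm_div, h9, n2]; norm_num
  have h12 : ‖(z + 1) / 2‖ = 1 := by rw [norm_div, h10, n2]; norm_num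
  have h13 := unit_sub h12
  have h14 : (z + 1) / 2 - 1 = (z - 1) / 2 := by ring
  rw [h14, h11] at h13
  norm_num at h13

theorem t_LOC : S_LOC := by
  intro k hk h8 n hn
  have hk0 : (k : ℚ_[2]) ≠ 0 := by exact_mod_cast hk
  have hkn : ‖(k : ℚ_[2])‖ ≤ 1 / 8 := by
    obtain ⟨m, rfl⟩ := h8
    push_cast
    have e : (8 : ℚ_[2]) = 2 * 2 * 2 := by norm_num
    rw [norm_mul, e, norm_mul, norm_mul, n2]
    have := Padic.norm_int_le_one (p := 2) m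
    nlinarith
  have hkpos : 0 < ‖(k : ℚ_[2])‖ := norm_pos_iff.mpr hk0
  have h2 : (2 : ℚ_[2]) ≠ 0 := by norm_num
  obtain ⟨j, rfl⟩ : ∃ j, n = j + 1 + 3 := ⟨n - 4, by omega⟩
  -- level `j + 2`, large
  obtain ⟨y, hy, hyn⟩ := tower hk0 hkn (j + 1 + 1)
  obtain ⟨u, hu, huy⟩ := hy
  obtain ⟨hy0, hw⟩ := sib hk0 huy
  set w : ℚ_[2] := -1 / y with hwdef
  have hwl : Lev k (j + 1 + 1) w := ⟨u, hu, hw⟩
  have hwn : ‖w‖ = ‖(k : ℚ_[2])‖ ^ (j + 1 + 1) := by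
    rw [hwdef, norm_div, norm_neg, norm_one]
    have : ‖y‖ ≠ 0 := norm_ne_zero_iff.mpr hy0
    field_simp
    linarith
  set τ : ℚ_[2] := w / (2 * k) with hτ
  have hτn : ‖τ‖ ≤ 1 / 4 := by
    rw [hτ, norm_div, norm_mul, n2, hwn, div_le_iff₀ (by positivity), pow_succ]
    have : ‖(k : ℚ_[2])‖ ^ (j + 1) ≤ 1 / 8 := by
      rw [pow_succ]
      have : ‖(k : ℚ_[2])‖ ^ j ≤ 1 := pow_le_one₀ (norm_nonneg _) (hkn.trans (by norm_num))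
      nlinarith
    nlinarith
  obtain ⟨s, hs, hs1, -⟩ := sqrt_ex (1 + τ ^ 2) (by
    rw [add_sub_cancel_left, norm_pow]
    nlinarith [norm_nonneg τ])
  rw [add_sub_cancel_left, norm_pow] at hs1
  set y₂ : ℚ_[2] := τ + s with hy₂
  have hy₂l : Lev k (j + 1 + 2) y₂ := by
    refine ⟨w, hwl, ?_⟩
    have hwτ : w = 2 * k * τ := by rw [hτ]; field_simp
    rw [hwτ, hy₂]
    linear_combination (k : ℚ_[2]) * hs
  have hy₂1 : ‖y₂ - 1‖ ≤ 1 / 4 := by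
    have h := Padic.nonarchimedean τ (s - 1)
    rw [show τ + (s - 1) = y₂ - 1 by rw [hy₂]; ring] at h
    refine h.trans (max_le hτn ?_)
    rw [hs1]
    nlinarith [norm_nonneg τ]
  have hy₂n : ‖y₂‖ = 1 := by
    rw [show y₂ = (y₂ - 1) + 1 by ring, nadd (by rw [norm_one]; linarith), norm_one]
  have hy₂0 : y₂ ≠ 0 := by
    intro h; rw [h, norm_zero] at hy₂n; norm_num at hy₂n
  obtain ⟨s', y₃, h1s', hy₃, hy₃l, hy₃n⟩ := large hk0 hkn (u := y₂) hy₂n.ge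
  obtain ⟨hy₃0, hv⟩ := sib hk0 hy₃l
  refine ⟨-1 / y₃, ⟨y₂, hy₂l, hv⟩, ?_⟩
  rintro ⟨z, hz⟩
  refine not_sq (η := y₂ * ((1 + s') / 2)) (z := z * y₃) ?_ ?_
  · rw [norm_mul, norm_div, h1s', hy₂n, n2]; norm_num
  · have h5 : z * z * y₃ ^ 2 = 1 + 4 * (k : ℚ_[2]) ^ 2 * y₃ ^ 2 := by
      rw [← hz]; field_simp
    have h6 : 2 * (k : ℚ_[2]) * y₃ = y₂ * (1 + s') := by
      rw [hy₃]; field_simp
    linear_combination h5 + (2 * (k : ℚ_[2]) * y₃ + y₂ * (1 + s')) * h6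

end Run7.h216.JM
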